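import Pool.Agent.X297.OC.Ops
import Pool.Agent.X297.BT.Ab

/-!
# One inequality decides the Tate conjecture for all powers of a potentially CM abelian variety
-/

open CategoryTheory AlgebraicGeometry

universe u v w

namespace Pool.Agent.X297.OC

open Pool.Agent.H914 Pool.Agent.H914.VarClass Pool.Agent.H914.VarClass.Obj
  Pool.Agent.H914.WeilCohomology Pool.Agent.H281R3.HT Pool.Agent.TH125.Gal Pool.Agent.X297.TIL
  Pool.Agent.X297.GT Pool.Agent.X297.BT Pool.Agent.X312.RL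
open Pool.Agent.Y129 (pw tateClasses TG cycRank)

variable {k : Type u} [Field k] {𝒱 : VarClass k} {ops : CycleOps 𝒱}
  {W : WeilCohomology.{u, v} ops} {X : 𝒱.Obj} {Γ : Type w} [Group Γ] {χ : Γ →* W.Kˣ}
  {G : GaloisPowers W X Γ χ} {Δ : Subgroup Γ} {S : Type}
  {H : WeightSystem (χ.comp Δ.subtype) S}

/-- The constant. -/
noncomputable def eps (b N n : ℕ) : ℝ :=
  4 * (N + 3) * (b : ℝ) ^ (N + 5) * Real.log (n + 2) / (n + 1)

lemma cst_eq (b N n : ℕ) : cst b N 2 n = eps b N n := by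
  rw [cst, eps]
  ring

lemma eps_nonneg (b N n : ℕ) : 0 ≤ eps b N n := by
  rw [← cst_eq]
  exact cst_nonneg b N (by norm_num) n

lemma TG_eq (n : ℕ) : TG W X χ G.act n = T G n := by
  apply le_antisymm
  · refine iSup_le fun j z hz => ?_
    exact Submodule.subset_span ⟨j, hz⟩
  · rw [T, Submodule.span_le]
    rintro z ⟨j, hz⟩
    exact le_iSup (fun j => tateClasses χ (W.gr (pw X n)) (G.act n) j) j hz

lemma finrank_TG (n : ℕ) : Module.finrank W.K (TG W X χ G.act n) = G.tateDim n := by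
  rw [TG_eq]
  rfl

lemma tateFor_iff (n : ℕ) : TG W X χ G.act n = algSpan W (pw X n) ↔ G.TateFor n := by
  constructor
  · intro h6 j c hc
    rw [← h6]
    exact le_iSup (fun j => tateClasses χ (W.gr (pw X n)) (G.act n) j) j hc
  · intro h6
    exact le_antisymm (iSup_le fun j z hz => h6 j z hz) (G.isAct.algSpan_le n)

/-- **The effective law for Tate classes.** -/
theorem tate_law {m : ℕ} (h : ¬ (G.TateFor m ∧ HomEqNum W (pw X m))) (n : ℕ) :
    (2 - eps (Module.finrank W.K (W.H X)) (m + 1) n) * cycRank ops (pw X n) ≤ G.tateDim n := by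
  rw [← cst_eq, ← finrank_TG]
  refine law G.isAct.stable G.isAct.algSpan_le (m := m) ?_ n
  by_cases h1 : HomEqNum W (pw X m)
  · left
    intro h2
    exact h ⟨(tateFor_iff m).1 h2, h1⟩
  · exact Or.inr h1

lemma eps_mono {b m N n : ℕ} (hb : 1 ≤ b) (h : m ≤ N) : eps b m n ≤ eps b N n := by
  rw [← cst_eq, ← cst_eq]
  exact cst_mono (by norm_num) hb h

lemma diag_of_adjoin {s : Set (W.H X)} (hs : Algebra.adjoin W.K s = ⊤)
    (h : ∀ x ∈ s, ∃ i ψ, x ∈ W.gr X i ∧ IsEigen (A := W.H X) (G.act 0) Δ ψ x) :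
    IsDiagonal (A := W.H X) (W.gr X) (G.act 0) Δ := by
  have h1 : Submodule.span W.K (Submonoid.closure s : Set (W.H X)) = ⊤ := by
    rw [← Algebra.adjoin_eq_span, hs, Algebra.top_toSubmodule]
  have h2 : (Submonoid.closure s : Set (W.H X)) ⊆
      {x | ∃ i ψ, x ∈ W.gr X i ∧ IsEigen (A := W.H X) (G.act 0) Δ ψ x} := by
    intro x hx
    induction hx using Submonoid.closure_induction with
    | mem x hx => exact h x hx
    | one =>
      refine ⟨0, 1, W.one_mem X, fun g => ?_⟩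
      exact (map_one (G.act 0 g)).trans (one_smul W.K (1 : W.H X)).symm
    | mul x y _ _ hx hy =>
      obtain ⟨i, ψ, h1, h2⟩ := hx
      obtain ⟨j, θ, h3, h4⟩ := hy
      refine ⟨i + j, ψ * θ, W.mul_mem h1 h3, fun g => ?_⟩
      rw [MonoidHom.mul_apply, Units.val_mul]
      exact (map_mul (G.act 0 g) x y).trans ((congrArg₂ (· * ·) (h2 g) (h4 g)).trans
        (smul_mul_smul_comm (ψ g : W.K) (x : W.H X) (θ g : W.K) (y : W.H X)))
  have h3 := Submodule.span_mono (R := W.K) h2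
  rw [h1, top_le_iff] at h3
  exact h3

lemma toric_of_ab (hΔ : Δ.FiniteIndex) {g : ℕ}
    (h : IsCMAbelian (A := W.H X) H (W.gr X) (G.act 0) g) : IsToric G Δ := by
  obtain ⟨v, v', hgen, hv⟩ := h
  refine ⟨hΔ, diag_of_adjoin hgen ?_⟩
  rintro x (⟨i, rfl⟩ | ⟨i, rfl⟩)
  · obtain ⟨h1, h1', ψ, ψ', h2, h2', -⟩ := hv i
    exact ⟨1, ψ, h1, h2⟩
  · obtain ⟨h1, h1', ψ, ψ', h2, h2', -⟩ := hv i
    exact ⟨1, ψ', h1', h2'⟩

lemma toric_of_gen (hΔ : Δ.FiniteIndex) {f c : ℕ}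
    (h : IsGeneratedBy (A := W.H X) H (W.gr X) (G.act 0) f c) : IsToric G Δ := by
  obtain ⟨v, hgen, hv⟩ := h
  refine ⟨hΔ, diag_of_adjoin hgen ?_⟩
  rintro x ⟨i, rfl⟩
  obtain ⟨d, ψ, h1, h2, -⟩ := hv i
  exact ⟨d, ψ, h1, h2⟩

/-- The Tate conjecture implies the conjecture D, in the toric case. -/
lemma homEqNum_of (h : IsToric G Δ) {n : ℕ} (h1 : G.TateFor n) : HomEqNum W (pw X n) := by
  obtain ⟨B⟩ := exists_GB h
  rw [Pool.Agent.Y133.Half.homEqNum_iff, eq_bot_iff]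
  intro c hc
  have h2 : c ∈ algSpan W (pw X n) ∧ ∀ d ∈ algSpan W (pw X n), W.tr (pw X n) (c * d) = 0 := hc
  have hTle : T G n ≤ algSpan W (pw X n) := by
    rw [T, Submodule.span_le]
    rintro d ⟨j, hd⟩
    exact h1 j d hd
  have hle : algSpan W (pw X n) ≤ T G n := by
    rw [← TG_eq]
    exact G.isAct.algSpan_le n
  rw [Submodule.mem_bot]
  exact B.nondeg h.finiteIndex (hle h2.1) fun y hy => h2.2 y (hTle hy)

lemma tateDim_eq_of {n : ℕ} (h1 : G.TateFor n) (h2 : HomEqNum W (pw X n)) :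
    G.tateDim n = cycRank ops (pw X n) := by
  rw [← finrank_TG, (tateFor_iff n).2 h1]
  exact ((Pool.Agent.Y133.Half.homEqNum_iff' (pw X n)).1 h2).symm

lemma tateDim_pos [Nontrivial (W.H X)] (n : ℕ) : 0 < G.tateDim n := by
  rw [← finrank_TG]
  refine lt_of_lt_of_le ?_ (Submodule.finrank_mono (G.isAct.algSpan_le n))
  have h3 : Nontrivial (W.H (pw X n)) := by
    apply Module.nontrivial_of_finrank_pos (R := W.K)
    rw [Pool.Agent.Y129.finrank_pw]
    exact pow_pos Module.finrank_pos _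
  rw [Module.finrank_pos_iff]
  exact ⟨⟨⟨1, Pool.Agent.W536.RR.one_mem_algSpan⟩, 0, fun h => one_ne_zero (congrArg Subtype.val h)⟩⟩

/-- The numerical estimate. -/
lemma eps_le {b N n : ℕ} (h : 256 * (N + 3) ^ 2 * b ^ (2 * N + 10) ≤ n + 1) :
    eps b N n ≤ 1 / 2 := by
  have hn : (0 : ℝ) < (n : ℝ) + 1 := by positivity
  set s : ℝ := Real.sqrt ((n : ℝ) + 1) with hs
  have hs0 : 0 < s := Real.sqrt_pos.2 hn
  have hss : s ^ 2 = (n : ℝ) + 1 := Real.sq_sqrt hn.le
  have hlog : Real.log ((n : ℝ) + 2) ≤ 2 * s := by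
    have e1 : (n : ℝ) + 2 ≤ (s + 1) ^ 2 := by nlinarith
    have e2 : Real.log ((n : ℝ) + 2) ≤ Real.log ((s + 1) ^ 2) :=
      Real.log_le_log (by positivity) e1
    rw [Real.log_pow] at e2
    have e3 := Real.log_le_sub_one_of_pos (show (0 : ℝ) < s + 1 by positivity)
    push_cast at e2
    linarith
  have hA : (16 * ((N : ℝ) + 3) * (b : ℝ) ^ (N + 5)) ^ 2 ≤ s ^ 2 := by
    rw [hss]
    have h1 : ((256 * (N + 3) ^ 2 * b ^ (2 * N + 10) : ℕ) : ℝ) ≤ ((n + 1 : ℕ) : ℝ) := by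
      exact_mod_cast h
    push_cast at h1
    refine le_trans (le_of_eq ?_) h1
    rw [show 2 * N + 10 = (N + 5) * 2 by ring, pow_mul]
    ring
  have hA' : 16 * ((N : ℝ) + 3) * (b : ℝ) ^ (N + 5) ≤ s :=
    le_of_sq_le_sq hA hs0.le
  rw [eps, div_le_iff₀ hn, ← hss]
  have h0 : 0 ≤ ((N : ℝ) + 3) * (b : ℝ) ^ (N + 5) := by positivity
  calc 4 * ((N : ℝ) + 3) * (b : ℝ) ^ (N + 5) * Real.log ((n : ℝ) + 2)
      = 4 * (((N : ℝ) + 3) * (b : ℝ) ^ (N + 5)) * Real.log ((n : ℝ) + 2) := by ring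
    _ ≤ 4 * (((N : ℝ) + 3) * (b : ℝ) ^ (N + 5)) * (2 * s) := by
        apply mul_le_mul_of_nonneg_left hlog
        positivity
    _ ≤ 1 / 2 * s ^ 2 := by nlinarith

/-- The dichotomy. -/
theorem dich [Nontrivial (W.H X)] (htor : IsToric G Δ) {N : ℕ}
    (hN : (∀ m < N, G.TateFor m) → ∀ m, G.TateFor m) :
    ((∀ m, G.TateFor m ∧ HomEqNum W (pw X m)) ∨
      ∀ n, (2 - eps (Module.finrank W.K (W.H X)) N n) * cycRank ops (pw X n) ≤ G.tateDim n) ∧
    ∀ n, 256 * (N + 3) ^ 2 * Module.finrank W.K (W.H X) ^ (2 * N + 10) ≤ n + 1 →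
      ((∀ m, G.TateFor m ∧ HomEqNum W (pw X m)) ↔
        2 * G.tateDim n < 3 * cycRank ops (pw X n)) := by
  have hb : 1 ≤ Module.finrank W.K (W.H X) := Module.finrank_pos
  have h1 : (∀ m, G.TateFor m ∧ HomEqNum W (pw X m)) ∨
      ∀ n, (2 - eps (Module.finrank W.K (W.H X)) N n) * cycRank ops (pw X n) ≤ G.tateDim n := by
    by_cases h : ∀ m < N, G.TateFor m
    · left
      intro m
      exact ⟨hN h m, homEqNum_of htor (hN h m)⟩
    · right
      push Not at h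
      obtain ⟨m, hm, h⟩ := h
      intro n
      refine le_trans ?_ (tate_law (G := G) (m := m) (fun h' => h h'.1) n)
      apply mul_le_mul_of_nonneg_right _ (Nat.cast_nonneg _)
      have := eps_mono (n := n) hb (show m + 1 ≤ N from hm)
      linarith
  refine ⟨h1, fun n hn => ⟨fun h => ?_, fun h => ?_⟩⟩
  · have h2 := tateDim_eq_of (h n).1 (h n).2
    have h3 := tateDim_pos (G := G) n
    omega
  · rcases h1 with h1 | h1
    · exact h1
    · exfalso
      have h2 := h1 n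
      have h3 := eps_le (N := N) (b := Module.finrank W.K (W.H X)) hn
      have h4 : 2 * (G.tateDim n : ℝ) < 3 * cycRank ops (pw X n) := by exact_mod_cast h
      have h5 : (0 : ℝ) ≤ cycRank ops (pw X n) := Nat.cast_nonneg _
      nlinarith

end Pool.Agent.X297.OC
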