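import Pool.Agent.X312.RL.Pred
import Pool.Agent.Y133.Half.Index2

/-!
# The effective law for stable systems of classes on the powers of a variety
-/

open CategoryTheory AlgebraicGeometry

universe u v w

namespace Pool.Agent.X297.OC

open Module Polynomial
open Pool.Agent.H914 Pool.Agent.H914.VarClass Pool.Agent.H914.VarClass.Obj
  Pool.Agent.H914.WeilCohomology Pool.Agent.Y133.Half Pool.Agent.Y133.Half.Sys
  Pool.Agent.X312.RL Pool.Agent.H281R3.HT Pool.Agent.W536.RR

variable {k : Type u} [Field k] {𝒱 : VarClass k} {ops : CycleOps 𝒱}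
  {W : WeilCohomology.{u, v} ops} {X Y Z : 𝒱.Obj}

/-- The operators of a system, acting on the cohomology. -/
def fullOps (S : Sys W) : Ops W W.K (fun Z => W.H Z) :=
  fun Z Z' => {a | a.1 = a.2 ∧ a.2 ∈ S.Op Z Z'}

lemma isMdl_full (S : Sys W) : IsMdl S (RingHom.id W.K) (fullOps S) := by
  refine ⟨?_, ?_, ?_, ?_, ?_⟩
  · rintro Z Z' a b ⟨ha, ha'⟩ ⟨hb, hb'⟩
    refine ⟨?_, Submodule.add_mem _ ha' hb'⟩
    change a.1 + b.1 = a.2 + b.2
    rw [ha, hb]
  · rintro Z Z' c a ⟨ha, ha'⟩
    refine ⟨?_, Submodule.smul_mem _ _ ha'⟩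
    change c • a.1 = c • a.2
    rw [ha]
  · intro Z
    exact ⟨rfl, Op.id⟩
  · rintro Z Z' Z'' a b ⟨ha, ha'⟩ ⟨hb, hb'⟩
    refine ⟨?_, Op.comp ha' hb'⟩
    change a.1 ∘ₗ b.1 = a.2 ∘ₗ b.2
    rw [ha, hb]
  · intro Z Z'
    have h1 : Prod.snd '' fullOps S Z Z' = (S.Op Z Z' : Set (W.H Z →ₗ[W.K] W.H Z')) := by
      ext u
      constructor
      · rintro ⟨a, ha, rfl⟩
        exact ha.2
      · intro hu
        exact ⟨(u, u), ⟨rfl, hu⟩, rfl⟩
    rw [h1, Submodule.span_eq]

lemma fine_full (S : Sys W) (P : 𝒱.Obj) : Fine (RingHom.id W.K) (fullOps S) P := by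
  refine ⟨?_, ?_⟩
  · rintro ⟨a, b⟩ ⟨hab, hb⟩
    change a = b at hab
    subst hab
    refine ⟨LinearMap.charpoly a, a.charpoly_monic.ne_zero, ?_, ?_⟩
    · exact LinearMap.aeval_self_charpoly a
    · rw [Polynomial.map_id]
      exact LinearMap.aeval_self_charpoly a
  · rintro ⟨a, b⟩ ⟨hab, hb⟩ - h0
    change a = b at hab
    change b = 0 at h0
    change a = 0
    rw [hab, h0]

/-- The operators given by algebraic classes are algebraic correspondences. -/
lemma op_alg_le (X Y : 𝒱.Obj) : (algSys W).Op X Y ≤ Pool.Agent.Y129.CC W X Y := by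
  intro f hf
  obtain ⟨c, hc, rfl⟩ := mem_Op.1 hf
  have hc' : c ∈ algSpan W (X.prod Y) := hc
  refine algSpan_induction (p := fun c => W.corr c ∈ Pool.Agent.Y129.CC W X Y) ?_ ?_ ?_ ?_ hc'
  · rw [corr_zero]; exact Submodule.zero_mem _
  · intro a b ha hb
    rw [corr_add]
    exact Submodule.add_mem _ ha hb
  · intro t a ha
    rw [corr_smul]
    exact Submodule.smul_mem _ _ ha
  · intro j z hz
    exact Pool.Agent.Y129.KOp.le_CC ((j : ℤ) - X.dim) (KOp.gen (by ring) hz)

lemma le_op_alg (X Y : 𝒱.Obj) : Pool.Agent.Y129.CC W X Y ≤ (algSys W).Op X Y := by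
  refine iSup_le fun d => ?_
  rw [KOp, Submodule.span_le]
  rintro f ⟨p, _, z, hz, rfl⟩
  exact Op.corr (Submodule.subset_span (Set.mem_iUnion.2 ⟨p, z, hz, rfl⟩))

/-- The classes generated by a stable system, on all varieties. -/
noncomputable def hull (X : 𝒱.Obj) (G : ∀ n, Submodule W.K (W.H (Pool.Agent.Y129.pw X n)))
    (Z : 𝒱.Obj) : Submodule W.K (W.H Z) :=
  Submodule.span W.K {z | ∃ n, ∃ f ∈ (algSys W).Op (Pool.Agent.Y129.pw X n) Z, ∃ a ∈ G n, f a = z}

variable {G : ∀ n, Submodule W.K (W.H (Pool.Agent.Y129.pw X n))}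

lemma stable_hull (X : 𝒱.Obj) (G : ∀ n, Submodule W.K (W.H (Pool.Agent.Y129.pw X n))) :
    Stable (fullOps (algSys W)) (hull X G) := by
  rintro Y Z a ⟨ha, ha'⟩ x hx
  rw [ha]
  induction hx using Submodule.span_induction with
  | mem x hx =>
    obtain ⟨n, f, hf, y, hy, rfl⟩ := hx
    exact Submodule.subset_span ⟨n, a.2 ∘ₗ f, Op.comp ha' hf, y, hy, rfl⟩
  | zero => rw [map_zero]; exact Submodule.zero_mem _
  | add x y _ _ hx hy => rw [map_add]; exact Submodule.add_mem _ hx hy
  | smul c x _ hx => rw [map_smul]; exact Submodule.smul_mem _ _ hx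

lemma stable_alg : Stable (fullOps (algSys W)) (fun Z => algSpan W Z) := by
  rintro Y Z a ⟨ha, ha'⟩ x hx
  rw [ha]
  exact Op.apply (S := algSys W) (T := algSys W) (fun _ => le_rfl) ha' hx

/-- The algebraic classes and the classes generated by the system. -/
noncomputable def big (X : 𝒱.Obj) (G : ∀ n, Submodule W.K (W.H (Pool.Agent.Y129.pw X n)))
    (Z : 𝒱.Obj) : Submodule W.K (W.H Z) := algSpan W Z ⊔ hull X G Z

lemma stable_big (X : 𝒱.Obj) (G : ∀ n, Submodule W.K (W.H (Pool.Agent.Y129.pw X n))) :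
    Stable (fullOps (algSys W)) (big X G) := by
  intro Y Z a ha x hx
  obtain ⟨y, hy, z, hz, rfl⟩ := Submodule.mem_sup.1 hx
  rw [map_add]
  exact Submodule.add_mem _ (Submodule.mem_sup_left (stable_alg Y Z a ha y hy))
    (Submodule.mem_sup_right (stable_hull X G Y Z a ha z hz))

lemma big_pw (hG : Pool.Agent.Y129.StableSystem W X G)
    (hA : ∀ n, algSpan W (Pool.Agent.Y129.pw X n) ≤ G n) (n : ℕ) :
    big X G (Pool.Agent.Y129.pw X n) = G n := by
  apply le_antisymm
  · refine sup_le (hA n) ?_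
    rw [hull, Submodule.span_le]
    rintro z ⟨m, f, hf, a, ha, rfl⟩
    exact hG m n f (op_alg_le _ _ hf) a ha
  · intro a ha
    exact Submodule.mem_sup_right
      (Submodule.subset_span ⟨n, LinearMap.id, Op.id, a, ha, rfl⟩)

section Iso

variable {Z' : 𝒱.Obj} {N N' : ∀ Z, Submodule W.K (W.H Z)}

lemma map_iso (θ : Z' ≅ Z) (x : W.H Z') : W.map θ.hom (W.map θ.inv x) = x := by
  rw [← W.map_comp, θ.hom_inv_id, W.map_id]

lemma map_mem (hN : Stable (fullOps (algSys W)) N) (f : Z' ⟶ Z) {x : W.H Z} (hx : x ∈ N Z) :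
    W.map f x ∈ N Z' :=
  hN Z Z' ((W.map f).toLinearMap, (W.map f).toLinearMap) ⟨rfl, Op.map f⟩ x hx

lemma eq_iso (hN : Stable (fullOps (algSys W)) N) (hN' : Stable (fullOps (algSys W)) N')
    (hle : ∀ Z, N' Z ≤ N Z) (θ : Z' ≅ Z) (h : N' Z = N Z) : N' Z' = N Z' := by
  apply le_antisymm (hle Z')
  intro x hx
  have h1 : W.map θ.inv x ∈ N' Z := by
    rw [h]
    exact map_mem hN θ.inv hx
  rw [← map_iso θ x]
  exact map_mem hN' θ.hom h1

lemma finrank_le_iso (hN : Stable (fullOps (algSys W)) N) (θ : Z' ≅ Z) :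
    finrank W.K (N Z') ≤ finrank W.K (N Z) := by
  let f : N Z' →ₗ[W.K] N Z :=
    (W.map θ.inv).toLinearMap.restrict fun _ hc => map_mem hN θ.inv hc
  refine LinearMap.finrank_le_finrank_of_injective (f := f) ?_
  intro x y h
  have h1 : W.map θ.inv x.1 = W.map θ.inv y.1 := congrArg Subtype.val h
  apply Subtype.ext
  rw [← map_iso θ x.1, h1, map_iso θ y.1]

lemma finrank_iso (hN : Stable (fullOps (algSys W)) N) (θ : Z' ≅ Z) :
    finrank W.K (N Z') = finrank W.K (N Z) :=
  le_antisymm (finrank_le_iso hN θ) (finrank_le_iso hN θ.symm)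

end Iso

/-- **The effective index law for stable systems of classes** on the powers of a variety. -/
theorem law (hG : Pool.Agent.Y129.StableSystem W X G)
    (hA : ∀ n, algSpan W (Pool.Agent.Y129.pw X n) ≤ G n) {m : ℕ}
    (hne : G m ≠ algSpan W (Pool.Agent.Y129.pw X m) ∨ ¬ HomEqNum W (Pool.Agent.Y129.pw X m))
    (n : ℕ) :
    (2 - cst (finrank W.K (W.H X)) (m + 1) 2 n) *
      Pool.Agent.Y129.cycRank ops (Pool.Agent.Y129.pw X n) ≤ finrank W.K (G n) := by
  have hc := cst_nonneg (finrank W.K (W.H X)) (m + 1) (ρ := 2) (by norm_num) n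
  have hcyc : ∀ Z : 𝒱.Obj, Pool.Agent.Y129.cycRank ops Z = cycRank ops Z := fun Z => rfl
  have hrank : Pool.Agent.Y129.cycRank ops (Pool.Agent.Y129.pw X n) = (algSys W).a (pw X n) := by
    rw [hcyc, cycRank_iso W (pwIso129 X n), numDim_eq_cycRank]
  have hGn : finrank W.K (G n) = finrank W.K (big X G (pw X n)) := by
    rw [← big_pw hG hA n]
    exact finrank_iso (stable_big X G) (pwIso129 X n)
  rw [hrank, hGn]
  have ha : (0 : ℝ) ≤ (algSys W).a (pw X n) := Nat.cast_nonneg _
  have hadd := (algSys W).a_add_num (pw X n)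
  have hle : finrank W.K ((algSys W).C (pw X n)) ≤ finrank W.K (big X G (pw X n)) :=
    Submodule.finrank_mono le_sup_left
  have hle' : ((algSys W).a (pw X n) : ℝ) + finrank W.K ((algSys W).Num (pw X n)) ≤
      finrank W.K (big X G (pw X n)) := by
    rw [← hadd] at hle
    exact_mod_cast hle
  have hnum : (0 : ℝ) ≤ finrank W.K ((algSys W).Num (pw X n)) := Nat.cast_nonneg _
  rcases (algSys W).exists_one_or X with ⟨l, hl, hl1⟩ | h0
  swap
  · rw [h0, Nat.cast_zero, mul_zero]
    exact Nat.cast_nonneg _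
  have hstA : Stable (fullOps (algSys W)) (fun Z => (algSys W).C Z) := stable_alg
  have hstN : Stable (fullOps (algSys W)) (fun Z => (algSys W).Num Z) := by
    rintro Y Z a ⟨ha, ha'⟩ x hx
    rw [ha]
    obtain ⟨c, hc, hc'⟩ := mem_Op.1 ha'
    rw [← hc', corr_apply]
    exact Sys.Num.push _ (Sys.Num.mul' hc (Sys.Num.map _ hx))
  rcases hne with hne | hne
  · have hne' : (algSys W).C (pw X m) ≠ big X G (pw X m) := by
      intro h
      apply hne
      have h1 := eq_iso (stable_big X G) hstA (fun _ => le_sup_left) (pwIso129 X m) h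
      rw [big_pw hG hA m] at h1
      exact h1.symm
    rcases (isMdl_full (algSys W)).bound hl hl1 (fun m => fine_full (algSys W) (pw X m)) hstA
      (stable_big X G) (fun _ => le_sup_left) hne' (le_refl (2 : ℝ)) n inferInstance with h | h
    · rw [← hadd] at h
      push_cast at h
      linarith
    · have h1 := (algSys W).a_le_num (h (algSys W))
      have h2 : ((algSys W).a (pw X n) : ℝ) ≤ finrank W.K ((algSys W).Num (pw X n)) := by
        exact_mod_cast h1
      nlinarith
  · have hne' : (⊥ : Submodule W.K (W.H (pw X m))) ≠ (algSys W).Num (pw X m) := by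
      intro h
      apply hne
      rw [homEqNum_iso (pwIso129 X m), homEqNum_iff]
      exact h.symm
    have hst0 : Stable (fullOps (algSys W)) (fun Z => (⊥ : Submodule W.K (W.H Z))) := by
      intro Y Z a _ x hx
      rw [(Submodule.mem_bot W.K).1 hx, map_zero]
      exact Submodule.zero_mem _
    rcases (isMdl_full (algSys W)).bound hl hl1 (fun m => fine_full (algSys W) (pw X m)) hst0
      hstN (fun _ => bot_le) hne' (le_refl (2 : ℝ)) n inferInstance with h | h
    · rw [finrank_bot, Nat.cast_zero, zero_add] at h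
      linarith
    · have h1 := (algSys W).a_le_num (h (algSys W))
      have h2 : ((algSys W).a (pw X n) : ℝ) ≤ finrank W.K ((algSys W).Num (pw X n)) := by
        exact_mod_cast h1
      nlinarith

end Pool.Agent.X297.OC
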